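import Mathlib
import Pool.Agent.Lib.helper23.MinB

set_option autoImplicit false

namespace Pool.Agent.Results.MP_335999_gt.Main

open Set Filter Topology Function Pool.Agent.Lib.helper23.MinB

def Minimal (G : Type) [Group G] [τ : TopologicalSpace G] : Prop :=
  ∀ σ : TopologicalSpace G, @IsTopologicalGroup G σ _ → @T2Space G σ → τ ≤ σ → σ = τ

def LocMin (G : Type) [Group G] [τ : TopologicalSpace G] : Prop :=
  ∃ V ∈ 𝓝 (1 : G), ∀ σ : TopologicalSpace G,
    @IsTopologicalGroup G σ _ → @T2Space G σ → τ ≤ σ → V ∈ @nhds G σ 1 → σ = τ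

def CT (X : Type) [TopologicalSpace X] : Prop :=
  ∀ (A : Set X), ∀ x ∈ closure A, ∃ B ⊆ A, B.Countable ∧ x ∈ closure B

abbrev E := ℕ →₀ ZMod 2
abbrev F := E →ₗ[ZMod 2] ZMod 2

@[ext] structure H where
  a : ZMod 2
  f : F
  e : E

noncomputable instance : Mul H := ⟨fun g h => ⟨g.a + h.a + h.f g.e, g.f + h.f, g.e + h.e⟩⟩
noncomputable instance : One H := ⟨⟨0, 0, 0⟩⟩
noncomputable instance : Inv H := ⟨fun g => ⟨-g.a + g.f g.e, -g.f, -g.e⟩⟩

lemma mul_d (g h : H) : g * h = ⟨g.a + h.a + h.f g.e, g.f + h.f, g.e + h.e⟩ := rfl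
lemma one_d : (1 : H) = ⟨0, 0, 0⟩ := rfl
lemma inv_d (g : H) : g⁻¹ = ⟨-g.a + g.f g.e, -g.f, -g.e⟩ := rfl

noncomputable instance : Group H := Group.ofLeftAxioms
  (fun g h k => by ext1 <;> simp [mul_d, add_assoc, add_left_comm, add_comm])
  (fun g => by simp [mul_d, one_d]) (fun g => by simp [mul_d, one_d, inv_d, -ZMod.neg_eq_self_mod_two])

def P : Filter H where
  sets := {U | ∃ S : Finset F, ∀ e, (∀ f ∈ S, f e = 0) → ⟨0, 0, e⟩ ∈ U}
  univ_sets := ⟨∅, fun _ _ => trivial⟩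
  sets_of_superset := fun ⟨S, h⟩ k => ⟨S, fun e he => k (h e he)⟩
  inter_sets := fun ⟨S, h⟩ ⟨T, k⟩ => by
    classical
    exact ⟨S ∪ T, fun e he => ⟨h e fun f hf => he f (Finset.mem_union_left _ hf),
      k e fun f hf => he f (Finset.mem_union_right _ hf)⟩⟩

lemma vP (S : Finset F) : ∀ᶠ g in P, g.a = 0 ∧ g.f = 0 ∧ ∀ f ∈ S, f g.e = 0 :=
  ⟨S, fun _ he => ⟨rfl, rfl, he⟩⟩

lemma z2 (a : ZMod 2) (h : a ≠ 1) : a = 0 := by revert a; decide

lemma mini [TopologicalSpace H] [IsTopologicalGroup H] [T2Space H] (h : P ≤ 𝓝 1) : 𝓝 1 ≤ P := by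
  classical
  have hz : ({⟨1, 0, 0⟩}ᶜ : Set H) ∈ 𝓝 1 := compl_singleton_mem_nhds (by simp [one_d])
  have c0 (g k : H) (hc : g * k * g⁻¹ * k⁻¹ ∈ ({⟨1, 0, 0⟩}ᶜ : Set H)) : k.f g.e = g.f k.e := by
    refine sub_eq_zero.1 (z2 _ fun e => hc ?_)
    rw [← e]
    ext1 <;> simp [mul_d, inv_d, -ZMod.neg_eq_self_mod_two]
    ring
  have c2 (g : H) : ∀ᶠ k in 𝓝 (1 : H), k.f g.e = g.f k.e :=
    mem_of_superset (((by fun_prop : Continuous fun k : H => g * k * g⁻¹ * k⁻¹).tendsto' 1 1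
      (by simp)) hz) fun k hk => c0 g k hk
  obtain ⟨W, w1, w2⟩ := mem_nhds_prod_iff.1 (inter_mem (((by fun_prop : Continuous fun p : H × H =>
    p.1 * p.2 * p.1⁻¹ * p.2⁻¹).tendsto' (1, 1) 1 (by simp)) hz) (((by fun_prop :
      Continuous fun p : H × H => p.1 * p.2⁻¹).tendsto' (1, 1) 1 (by simp)) hz))
  obtain ⟨W', w3, w2⟩ := w2
  obtain ⟨S, hS⟩ := h w3
  rintro U ⟨T, hT⟩
  let φ : E → S → ZMod 2 := fun e f => f.1 e
  filter_upwards [w1, eventually_all.2 fun v => c2 ⟨0, 0, invFun φ v⟩,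
    (eventually_all_finset (S ∪ T)).2 fun f _ => c2 ⟨0, f, 0⟩] with k k1 k2 k3
  have k4 (f) (hf : f ∈ S ∪ T) : f k.e = 0 := by simpa using (k3 f hf).symm
  have k5 : k.f = 0 := LinearMap.ext fun e => by
    have := c0 _ _ (w2 (mk_mem_prod k1 (hS (e - invFun φ (φ e)) fun f hf => by
      rw [map_sub, sub_eq_zero]
      exact (congrFun (invFun_eq ⟨e, rfl⟩ : φ (invFun φ (φ e)) = φ e) ⟨f, hf⟩).symm))).1
    simpa [k2 (φ e)] using this.symm
  have k6 : k.a = 0 := z2 _ fun e => (w2 (mk_mem_prod k1 (hS k.e fun f hf =>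
    k4 f (Finset.mem_union_left _ hf)))).2 (by ext1 <;> simp [mul_d, inv_d, e, k5])
  have : k = ⟨0, 0, k.e⟩ := by ext1 <;> simp [k5, k6]
  exact this ▸ hT _ fun f hf => k4 f (Finset.mem_union_right _ hf)

lemma sepE (v : E) : ∃ f : F, f v = 0 → v = 0 := by
  by_cases h : v = 0
  · exact ⟨0, fun _ => h⟩
  · obtain ⟨i, hi⟩ := DFunLike.ne_iff.1 h
    exact ⟨Finsupp.lapply i, fun k => (hi k).elim⟩

lemma noseq (e : ℕ → E) (h : ∀ f : F, ∀ᶠ n in atTop, f (e n) = 0) : ∀ᶠ n in atTop, e n = 0 := by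
  obtain ⟨b, b1, b2, b3⟩ := exists_linearIndependent (ZMod 2) (range e)
  have b3' : LinearIndepOn (ZMod 2) id b := b3
  have h1 := h ((Module.Basis.extend b3').constr (ZMod 2) fun _ => 1)
  rw [← Nat.cofinite_eq_atTop, eventually_cofinite] at h1
  have h2 : b.Finite := (h1.image e).subset fun v hv => by
    obtain ⟨n, rfl⟩ := b1 hv
    refine ⟨n, fun k => ?_, rfl⟩
    have := ((Module.Basis.extend b3').constr_basis (ZMod 2) (fun _ => (1 : ZMod 2))
      ⟨_, b3'.subset_extend _ hv⟩)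
    rw [Module.Basis.extend_apply_self] at this
    exact zero_ne_one (k.symm.trans this)
  haveI := Module.Finite.span_of_finite (ZMod 2) h2
  have h3 : (range e).Finite := (Set.finite_coe_iff.1 (Module.finite_of_finite (ZMod 2)
    (M := Submodule.span (ZMod 2) b))).subset (b2 ▸ Submodule.subset_span)
  choose g hg using sepE
  filter_upwards [(eventually_all_finite h3).2 fun v _ => h (g v)] with n hn
  exact hg _ (hn _ ⟨n, rfl⟩)

theorem result :
    (∀ (G : Type) [CommGroup G] [TopologicalSpace G] [IsTopologicalGroup G] [T2Space G],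
      LocMin G → CT G →
        TopologicalSpace.MetrizableSpace G ∧ FrechetUrysohnSpace G ∧ SequentialSpace G) ∧
    ∃ (G : Type) (_ : Group G) (_ : TopologicalSpace G), IsTopologicalGroup G ∧ T2Space G ∧
      Minimal G ∧ LocMin G ∧ CT G ∧ ¬ SequentialSpace G ∧ ¬ FrechetUrysohnSpace G ∧
        ¬ TopologicalSpace.MetrizableSpace G := by
  constructor
  · rintro G _ _ _ _ ⟨U, u1, hU⟩ ht
    obtain ⟨B, b1, b2⟩ := loc le_rfl u1 hU fun A x hx =>
      (ht A x hx).imp fun B hB => ⟨hB.1, hB.2.1.le_aleph0, hB.2.2⟩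
    haveI := metr (HasCountableBasis.isCountablyGenerated
      ⟨b1, Cardinal.le_aleph0_iff_set_countable.1 b2⟩)
    exact ⟨this, inferInstance, inferInstance⟩
  classical
  obtain ⟨τ, t1, t2⟩ := ofFilter P (fun U ⟨S, h⟩ => h 0 (by simp))
    (fun U ⟨S, h⟩ => mem_map.2 <| mem_of_superset (prod_mem_prod (vP S) (vP S))
      fun p ⟨⟨a1, a2, a3⟩, a4, a5, a6⟩ => by
      simpa [mul_d, a1, a2, a4, a5] using h (p.1.e + p.2.e) fun f hf => by simp [a3 f hf, a6 f hf])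
    (fun U ⟨S, h⟩ => mem_map.2 <| mem_of_superset (vP S) fun p ⟨a1, a2, a3⟩ => by
      simpa [inv_d, a1, a2] using h (-p.e) fun f hf => by simp [a3 f hf])
    fun g U ⟨S, h⟩ => mem_map.2 <| mem_of_superset (vP (insert g.f S)) fun p ⟨a1, a2, a3⟩ => by
      simpa [mul_d, inv_d, a1, a2, a3 g.f (by simp), -ZMod.neg_eq_self_mod_two] using h p.e fun f hf => a3 f (by simp [hf])
  have m : Minimal H := fun σ s1 s2 s3 => by
    have : P ≤ @nhds H σ 1 := t2 ▸ _root_.nhds_mono s3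
    exact IsTopologicalGroup.ext s1 t1 (t2 ▸ le_antisymm (@mini σ s1 s2 this) this)
  have ns : ¬ SequentialSpace H := fun _ => by
    have : IsClosed ({1}ᶜ : Set H) := IsSeqClosed.isClosed fun x p hx hp (e : p = 1) => by
      rw [e, t2] at hp
      obtain ⟨n, ⟨a1, a2, -⟩, a3⟩ := ((hp.eventually (vP ∅)).and (noseq (fun n => (x n).e) fun f =>
        (hp.eventually (vP {f})).mono fun n hn => hn.2.2 f (by simp))).exists
      exact hx n (H.ext a1 a2 a3)
    have h1 := (isClosed_compl_iff.1 this).mem_nhds rfl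
    rw [t2] at h1
    obtain ⟨S, hS⟩ := h1
    obtain ⟨x, y, h2, h3⟩ := Finite.exists_ne_map_eq_of_infinite fun (e : E) (f : S) => f.1 e
    exact h2 (sub_eq_zero.1 (congrArg H.e (hS (x - y) fun f hf => by
      rw [map_sub, sub_eq_zero]; exact congrFun h3 ⟨f, hf⟩)))
  refine ⟨H, inferInstance, τ, t1, IsTopologicalGroup.t2Space_of_one_sep fun x hx => ?_, m,
    ⟨univ, univ_mem, fun σ s1 s2 s3 _ => m σ s1 s2 s3⟩, fun A x hx => ⟨A ∩ {g | g.f = x.f},
      inter_subset_left, ?_, ?_⟩, ns, fun _ => ns inferInstance, fun _ => ns inferInstance⟩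
  · obtain ⟨f, hf⟩ := sepE x.e
    exact ⟨_, t2 ▸ vP {f}, fun k => hx (H.ext k.1 k.2.1 (hf (k.2.2 f (by simp))))⟩
  · exact countable_of_injective_of_countable_image (f := fun g => (g.a, g.e))
      (fun g hg k hk e => H.ext (congrArg Prod.fst e) (hg.2.trans hk.2.symm) (congrArg Prod.snd e))
      (to_countable _)
  · refine mem_closure_iff_frequently.2 ((mem_closure_iff_frequently.1 hx).and_eventually
      ((((continuous_mul_const x⁻¹).tendsto' x 1 (mul_inv_cancel x)).eventually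
        (t2 ▸ vP ∅)).mono fun g hg => ?_))
    simpa [mul_d, inv_d, add_neg_eq_zero] using hg.2.1

end Pool.Agent.Results.MP_335999_gt.Main
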